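import Pool.Agent.Helper62.BW.Stm
import Pool.Agent.Helper38.BL.Van

/-!
# Package `W_Van` (helper62, phase 4): the order argument
-/

set_option autoImplicit false

open Polynomial Matrix Finset

namespace Pool.Agent.Helper38.BW

open Pool.Agent.Helper62.BM Pool.Agent.Helper62.BW
open Pool.Agent.Helper38.BL (tay_X tay_C tay_derivative tay_constantCoeff tay_coeff_one deriv_dot
  deriv_mulVec)

section

variable {k : Type} [Field k] {g : ℕ}

/-- The function `y_θ`. -/
noncomputable def yf (D : Dat k g) (x : Fin (2 * g) → PowerSeries k)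
    (θ : Matrix (Fin (2 * g)) (Fin (2 * g)) k[X]) : PowerSeries k :=
  D.xi x ⬝ᵥ (θ.map (tay D.c) *ᵥ x)

lemma map_wD (D : Dat k g) (θ : Matrix (Fin (2 * g)) (Fin (2 * g)) k[X]) :
    (D.wD θ).map (tay D.c) =
      tay D.c D.W • (θ.map (tay D.c)).map (PowerSeries.derivative k) +
      D.M.map (tay D.c) * θ.map (tay D.c) - θ.map (tay D.c) * D.M.map (tay D.c) := by
  ext1 a b
  simp only [Dat.wD, Matrix.map_apply, Matrix.sub_apply, Matrix.add_apply, Matrix.smul_apply,
    Matrix.mul_apply, map_sub, map_add, map_sum, map_mul, smul_eq_mul, tay_derivative]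

/-- The derivative of the adjugate. -/
lemma adj_hor (D : Dat k g) (hdet : D.Q.det = Polynomial.C D.δ) (hδ : D.δ ≠ 0)
    (hH : D.W • D.Q.map (fun q => derivative q) + D.M * D.Q + D.Q * D.Mᵀ = 0) :
    D.W • D.Q.adjugate.map (fun q => derivative q) =
      D.Q.adjugate * D.M + D.Mᵀ * D.Q.adjugate := by
  set A := D.Q.adjugate with hA
  set dQ := D.Q.map (fun q => derivative q) with hdQ
  set dA := A.map (fun q => derivative q) with hdA
  have h1 : D.Q * A = (Polynomial.C D.δ) • (1 : Matrix (Fin (2 * g)) (Fin (2 * g)) k[X]) := by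
    rw [hA, Matrix.mul_adjugate, hdet]
  have h1' : A * D.Q = (Polynomial.C D.δ) • (1 : Matrix (Fin (2 * g)) (Fin (2 * g)) k[X]) := by
    rw [hA, Matrix.adjugate_mul, hdet]
  have h2 : dQ * A + D.Q * dA = 0 := by
    have h := congrArg (fun B : Matrix (Fin (2 * g)) (Fin (2 * g)) k[X] =>
      B.map (fun q => derivative q)) h1
    have e1 : (D.Q * A).map (fun q => derivative q) = dQ * A + D.Q * dA := by
      ext1 a b
      simp only [Matrix.map_apply, Matrix.mul_apply, Matrix.add_apply, hdQ, hdA,
        Polynomial.derivative_sum, Polynomial.derivative_mul, Finset.sum_add_distrib]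
    have e2 : ((Polynomial.C D.δ) • (1 : Matrix (Fin (2 * g)) (Fin (2 * g)) k[X])).map
        (fun q => derivative q) = 0 := by
      ext1 a b
      by_cases hab : a = b
      · subst hab; simp
      · simp [Matrix.one_apply_ne hab]
    simp only [e1, e2] at h
    exact h
  have h3 : (Polynomial.C D.δ) • (D.W • dA) =
      (Polynomial.C D.δ) • (A * D.M + D.Mᵀ * A) := by
    have e1 : (Polynomial.C D.δ) • (D.W • dA) = A * (D.W • (D.Q * dA)) := by
      rw [Matrix.mul_smul, ← mul_assoc, h1', smul_mul_assoc, one_mul, smul_comm]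
    have e2 : D.W • (D.Q * dA) = (D.M * D.Q + D.Q * D.Mᵀ) * A := by
      have e3 : D.Q * dA = -(dQ * A) := eq_neg_of_add_eq_zero_right h2
      have e4 : D.W • dQ = -(D.M * D.Q + D.Q * D.Mᵀ) := by
        rw [← sub_eq_zero, sub_neg_eq_add, ← add_assoc]; exact hH
      rw [e3, smul_neg, ← smul_mul_assoc, e4, Matrix.neg_mul, neg_neg]
    rw [e1, e2, add_mul, mul_add, mul_assoc D.M, h1, mul_smul_comm, mul_one, mul_smul_comm,
      mul_assoc D.Q, ← mul_assoc A D.Q, h1', smul_mul_assoc, one_mul, smul_add]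
  have hC : (Polynomial.C D.δ : k[X]) ≠ 0 := by simpa using hδ
  ext1 a b
  have h4 := congrFun (congrFun h3 a) b
  simp only [Matrix.smul_apply, smul_eq_mul] at h4 ⊢
  exact mul_left_cancel₀ hC h4

/-- The row `ξ` is horizontal. -/
lemma xi_hor (D : Dat k g) (hdet : D.Q.det = Polynomial.C D.δ) (hδ : D.δ ≠ 0)
    (hH : D.W • D.Q.map (fun q => derivative q) + D.M * D.Q + D.Q * D.Mᵀ = 0)
    (x : Fin (2 * g) → PowerSeries k) (hx : D.Hor x) :
    (tay D.c D.W • fun a => PowerSeries.derivative k (D.xi x a)) =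
      (D.M.map (tay D.c))ᵀ *ᵥ D.xi x := by
  set W := tay D.c D.W with hW
  set MM := D.M.map (tay D.c) with hMM
  set AA := D.Q.adjugate.map (tay D.c) with hAA
  have hx' : (W • fun a => PowerSeries.derivative k (x a)) = - (MM *ᵥ x) := by
    funext a
    have := hx a
    exact eq_neg_of_add_eq_zero_left this
  have hA' : W • AA.map (PowerSeries.derivative k) = AA * MM + MMᵀ * AA := by
    have h := congrArg (fun B : Matrix (Fin (2 * g)) (Fin (2 * g)) k[X] => B.map (tay D.c))
      (adj_hor D hdet hδ hH)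
    ext1 a b
    have h' := congrFun (congrFun h a) b
    simp only [hW, hMM, hAA]
    simpa only [Matrix.map_apply, Matrix.smul_apply, Matrix.add_apply, Matrix.mul_apply,
      Matrix.transpose_apply, smul_eq_mul, map_mul, map_add, map_sum, ← tay_derivative] using h'
  have hxi : D.xi x = AA *ᵥ x := rfl
  have e : (fun a => PowerSeries.derivative k (D.xi x a)) =
      AA.map (PowerSeries.derivative k) *ᵥ x +
        AA *ᵥ fun a => PowerSeries.derivative k (x a) := by
    rw [hxi, deriv_mulVec]
  rw [e, smul_add, ← Matrix.smul_mulVec, hA', ← Matrix.mulVec_smul, hx', hxi,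
    Matrix.mulVec_neg, Matrix.mulVec_mulVec, Matrix.mulVec_mulVec, Matrix.add_mulVec]
  abel

lemma yf_wD (D : Dat k g) (hdet : D.Q.det = Polynomial.C D.δ) (hδ : D.δ ≠ 0)
    (hH : D.W • D.Q.map (fun q => derivative q) + D.M * D.Q + D.Q * D.Mᵀ = 0)
    (x : Fin (2 * g) → PowerSeries k) (hx : D.Hor x)
    (θ : Matrix (Fin (2 * g)) (Fin (2 * g)) k[X]) :
    tay D.c D.W * PowerSeries.derivative k (yf D x θ) = yf D x (D.wD θ) := by
  set W := tay D.c D.W with hW
  set MM := D.M.map (tay D.c) with hMM
  set T := θ.map (tay D.c) with hT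
  have hx' : (W • fun a => PowerSeries.derivative k (x a)) = - (MM *ᵥ x) := by
    funext a
    have := hx a
    exact eq_neg_of_add_eq_zero_left this
  have hxi' := xi_hor D hdet hδ hH x hx
  rw [← hW, ← hMM] at hxi'
  have key : PowerSeries.derivative k (yf D x θ) =
      (fun a => PowerSeries.derivative k (D.xi x a)) ⬝ᵥ (T *ᵥ x) +
        (D.xi x ⬝ᵥ (T.map (PowerSeries.derivative k) *ᵥ x) +
          D.xi x ⬝ᵥ (T *ᵥ fun a => PowerSeries.derivative k (x a))) := by
    unfold yf
    rw [deriv_dot, deriv_mulVec, dotProduct_add]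
  have key2 : W * PowerSeries.derivative k (yf D x θ) =
      (W • fun a => PowerSeries.derivative k (D.xi x a)) ⬝ᵥ (T *ᵥ x) +
        (D.xi x ⬝ᵥ ((W • T.map (PowerSeries.derivative k)) *ᵥ x) +
          D.xi x ⬝ᵥ (T *ᵥ (W • fun a => PowerSeries.derivative k (x a)))) := by
    rw [key, Matrix.smul_mulVec, Matrix.mulVec_smul, smul_dotProduct, dotProduct_smul,
      dotProduct_smul]
    simp only [smul_eq_mul]
    ring
  rw [key2, hxi', hx']
  unfold yf
  rw [map_wD, Matrix.sub_mulVec, Matrix.add_mulVec, dotProduct_sub, dotProduct_add,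
    Matrix.mulVec_neg, dotProduct_neg, Matrix.mulVec_mulVec]
  have e3 : (MMᵀ *ᵥ D.xi x) ⬝ᵥ (T *ᵥ x) = D.xi x ⬝ᵥ ((MM * T) *ᵥ x) := by
    rw [← Matrix.mulVec_mulVec, Matrix.mulVec_transpose, Matrix.dotProduct_mulVec,
      Matrix.dotProduct_mulVec, Matrix.dotProduct_mulVec]
  rw [e3]
  ring

lemma eval_W (D : Dat k g) : D.W.eval D.c = 0 := by
  simp [Dat.W]

/-- The value of `wD θ` at `c`. -/
lemma eval_wD (D : Dat k g) (θ : Matrix (Fin (2 * g)) (Fin (2 * g)) k[X]) :
    (D.wD θ).map (Polynomial.eval D.c) =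
      D.M.map (Polynomial.eval D.c) * θ.map (Polynomial.eval D.c) -
        θ.map (Polynomial.eval D.c) * D.M.map (Polynomial.eval D.c) := by
  ext1 a b
  simp only [Dat.wD, Matrix.map_apply, Matrix.sub_apply, Matrix.add_apply, Matrix.smul_apply,
    Matrix.mul_apply, Polynomial.eval_sub, Polynomial.eval_add, Polynomial.eval_finsetSum,
    Polynomial.eval_mul, smul_eq_mul, eval_W, zero_mul, zero_add]

lemma e_dot_r [CharZero k] (D : Dat k g) (hQ : D.Qᵀ = -D.Q) : ∑ a, D.e a * D.r a = 0 := by
  have h : ∑ a, D.e a * D.r a = - ∑ a, D.e a * D.r a := by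
    calc ∑ a, D.e a * D.r a = ∑ a, ∑ l, D.e a * ((D.Q a l).eval D.c * D.e l) := by
          refine Finset.sum_congr rfl fun a _ => ?_
          rw [Dat.r, Finset.mul_sum]
      _ = ∑ l, ∑ a, D.e a * ((D.Q a l).eval D.c * D.e l) := Finset.sum_comm
      _ = ∑ l, ∑ a, - (D.e l * ((D.Q l a).eval D.c * D.e a)) := by
          refine Finset.sum_congr rfl fun l _ => Finset.sum_congr rfl fun a _ => ?_
          have h1 : D.Q a l = - D.Q l a := by
            have := congrFun (congrFun hQ l) a
            simpa [Matrix.transpose_apply] using this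
          rw [h1, Polynomial.eval_neg]
          ring
      _ = - ∑ a, D.e a * D.r a := by
          rw [← Finset.sum_neg_distrib]
          refine Finset.sum_congr rfl fun a _ => ?_
          rw [Dat.r, Finset.mul_sum, ← Finset.sum_neg_distrib]
  exact self_eq_neg.mp h

lemma M_sq [CharZero k] (D : Dat k g) (hQ : D.Qᵀ = -D.Q) (hμ : D.μ ≠ 0)
    (hM : ∀ i j, D.μ * (D.M i j).eval D.c = D.κ * D.r i * D.e j) :
    D.M.map (Polynomial.eval D.c) * D.M.map (Polynomial.eval D.c) = 0 := by
  ext1 i j
  rw [Matrix.zero_apply]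
  have h : D.μ * (D.μ * (D.M.map (Polynomial.eval D.c) * D.M.map (Polynomial.eval D.c)) i j) =
      0 := by
    rw [Matrix.mul_apply]
    simp only [Matrix.map_apply]
    calc D.μ * (D.μ * ∑ l, (D.M i l).eval D.c * (D.M l j).eval D.c)
        = ∑ l, (D.μ * (D.M i l).eval D.c) * (D.μ * (D.M l j).eval D.c) := by
          rw [Finset.mul_sum, Finset.mul_sum]
          refine Finset.sum_congr rfl fun l _ => ?_
          ring
      _ = ∑ l, (D.κ * D.r i * (D.κ * D.e j)) * (D.e l * D.r l) := by
          refine Finset.sum_congr rfl fun l _ => ?_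
          rw [hM, hM]; ring
      _ = 0 := by rw [← Finset.mul_sum, e_dot_r D hQ, mul_zero]
  have h2 := (mul_eq_zero.mp h).resolve_left hμ
  exact (mul_eq_zero.mp h2).resolve_left hμ

/-- The cube of `wD` is divisible by `X - c`. -/
lemma wD_cube (D : Dat k g)
    (hM2 : D.M.map (Polynomial.eval D.c) * D.M.map (Polynomial.eval D.c) = 0)
    (θ : Matrix (Fin (2 * g)) (Fin (2 * g)) k[X]) :
    ∃ θ' : Matrix (Fin (2 * g)) (Fin (2 * g)) k[X],
      D.wD (D.wD (D.wD θ)) = (X - Polynomial.C D.c) • θ' := by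
  have h0 : (D.wD (D.wD (D.wD θ))).map (Polynomial.eval D.c) = 0 := by
    rw [eval_wD, eval_wD, eval_wD]
    set N := D.M.map (Polynomial.eval D.c) with hN
    set A := θ.map (Polynomial.eval D.c) with hA
    have e : N * (N * (N * A - A * N) - (N * A - A * N) * N) -
        (N * (N * A - A * N) - (N * A - A * N) * N) * N =
        (N * N) * (N * A) - 3 • (N * N) * (A * N) + 3 • (N * A) * (N * N) - A * N * (N * N) := by
      noncomm_ring
    rw [e, hM2]
    simp
  have hd : ∀ a b, (X - Polynomial.C D.c) ∣ (D.wD (D.wD (D.wD θ))) a b := by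
    intro a b
    rw [Polynomial.dvd_iff_isRoot]
    exact congrFun (congrFun h0 a) b
  choose θ' hθ' using hd
  exact ⟨Matrix.of θ', by ext1 a b; rw [hθ' a b]; rfl⟩

lemma yf_smul (D : Dat k g) (x : Fin (2 * g) → PowerSeries k) (q : k[X])
    (θ : Matrix (Fin (2 * g)) (Fin (2 * g)) k[X]) : yf D x (q • θ) = tay D.c q * yf D x θ := by
  unfold yf
  have : (q • θ).map (tay D.c) = tay D.c q • θ.map (tay D.c) := by
    ext1 a b
    simp [Matrix.smul_apply]
  rw [this, Matrix.smul_mulVec, dotProduct_smul, smul_eq_mul]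

/-- `ξ(c) = δ e`. -/
lemma xi_const (D : Dat k g) (hdet : D.Q.det = Polynomial.C D.δ)
    (x : Fin (2 * g) → PowerSeries k)
    (hx0 : ∀ a, PowerSeries.constantCoeff (x a) = D.r a) (a : Fin (2 * g)) :
    PowerSeries.constantCoeff (D.xi x a) = D.δ * D.e a := by
  have h1 : PowerSeries.constantCoeff (D.xi x a) =
      ∑ b, (D.Q.adjugate a b).eval D.c * D.r b := by
    simp only [Dat.xi, Matrix.mulVec, dotProduct, map_sum, map_mul, Matrix.map_apply,
      tay_constantCoeff, hx0]
  have h2 : ∀ l, ∑ b, (D.Q.adjugate a b).eval D.c * (D.Q b l).eval D.c =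
      if a = l then D.δ else 0 := by
    intro l
    have h := congrArg (fun B : Matrix (Fin (2 * g)) (Fin (2 * g)) k[X] => (B a l).eval D.c)
      (Matrix.adjugate_mul D.Q)
    simp only [Matrix.mul_apply, Polynomial.eval_finsetSum, Polynomial.eval_mul, hdet,
      Matrix.smul_apply, Matrix.one_apply, smul_eq_mul, mul_ite, mul_one, mul_zero] at h
    rw [h]
    split_ifs <;> simp
  rw [h1]
  simp only [Dat.r, Finset.mul_sum]
  rw [Finset.sum_comm]
  calc ∑ l, ∑ b, (D.Q.adjugate a b).eval D.c * ((D.Q b l).eval D.c * D.e l)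
      = ∑ l, (∑ b, (D.Q.adjugate a b).eval D.c * (D.Q b l).eval D.c) * D.e l := by
        refine Finset.sum_congr rfl fun l _ => ?_
        rw [Finset.sum_mul]
        refine Finset.sum_congr rfl fun b _ => ?_
        ring
    _ = D.δ * D.e a := by
        simp only [h2, ite_mul, zero_mul, Finset.sum_ite_eq, Finset.mem_univ, if_true]

end

theorem w_Van : W_Van := by
  intro k _ _ g D hOk x hx hx0 Θ hΘ hsat hval
  obtain ⟨hQ, -, hdet, -, hδ, -, hw, hμ, -, -, hH, hM⟩ := hOk
  have hM2 := M_sq D hQ hμ hM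
  suffices H : ∀ m : ℕ, ∀ θ ∈ Θ, PowerSeries.coeff m (yf D x θ) = 0 by
    intro θ hθ
    have : yf D x θ = 0 := by
      ext m
      rw [H m θ hθ, map_zero]
    exact this
  intro m
  induction m using Nat.strong_induction_on with
  | _ m ih =>
    intro θ hθ
    rcases Nat.eq_zero_or_pos m with rfl | hm
    · -- the value at `0`
      have h := hval θ hθ
      rw [PowerSeries.coeff_zero_eq_constantCoeff_apply]
      have e1 : PowerSeries.constantCoeff (yf D x θ) =
          D.δ * (D.e ⬝ᵥ (θ.map (Polynomial.eval D.c) *ᵥ D.r)) := by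
        simp only [yf, dotProduct, Matrix.mulVec, map_sum, map_mul, xi_const D hdet x hx0,
          Matrix.map_apply, tay_constantCoeff, hx0, Finset.mul_sum, mul_assoc]
      rw [e1, h, mul_zero]
    · -- the order argument
      set W := tay D.c D.W with hW
      have hW0 : PowerSeries.coeff 0 W = 0 := by
        rw [PowerSeries.coeff_zero_eq_constantCoeff_apply, tay_constantCoeff, eval_W]
      set ν := PowerSeries.coeff 1 W with hν
      have hν0 : ν ≠ 0 := by
        rw [hν, tay_coeff_one, Dat.W, Polynomial.derivative_mul]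
        simpa using hw
      -- the coefficient of `s ^ m` of `W y'`
      have step : ∀ η ∈ Θ, PowerSeries.coeff m (yf D x (D.wD η)) =
          ν * (m * PowerSeries.coeff m (yf D x η)) := by
        intro η hη
        rw [← yf_wD D hdet hδ hH x hx η, ← hW, PowerSeries.coeff_mul]
        obtain ⟨l, rfl⟩ : ∃ l, m = l + 1 := ⟨m - 1, by omega⟩
        rw [Finset.sum_eq_single (1, l)]
        · rw [PowerSeries.coeff_derivative, ← hν]
          push_cast
          ring
        · rintro ⟨a, b⟩ hab hne
          rw [Finset.HasAntidiagonal.mem_antidiagonal] at hab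
          simp only at hab ⊢
          rcases Nat.eq_zero_or_pos a with rfl | ha
          · rw [hW0, zero_mul]
          · have hb : b < l := by
              rcases Nat.lt_or_ge b l with h | h
              · exact h
              · exfalso; apply hne
                have : a = 1 := by omega
                have : b = l := by omega
                subst_vars; rfl
            rw [PowerSeries.coeff_derivative, ih (b + 1) (by omega) η hη, zero_mul, mul_zero]
        · intro h
          refine absurd (Finset.HasAntidiagonal.mem_antidiagonal.mpr ?_) h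
          show 1 + l = l + 1
          omega
      obtain ⟨θ', hθ'⟩ := wD_cube D hM2 θ
      have h1 := hΘ θ hθ
      have h2 := hΘ _ h1
      have h3 := hΘ _ h2
      have hθ'mem : θ' ∈ Θ := hsat θ' (hθ' ▸ h3)
      have hz : PowerSeries.coeff m (yf D x (D.wD (D.wD (D.wD θ)))) = 0 := by
        rw [hθ', yf_smul]
        have : tay D.c (X - Polynomial.C D.c) = PowerSeries.X := by
          rw [map_sub, tay_X, tay_C]; ring
        rw [this]
        obtain ⟨l, rfl⟩ : ∃ l, m = l + 1 := ⟨m - 1, by omega⟩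
        rw [PowerSeries.coeff_succ_X_mul]
        exact ih l (by omega) θ' hθ'mem
      rw [step _ h2, step _ h1, step _ hθ] at hz
      have hm0 : (m : k) ≠ 0 := Nat.cast_ne_zero.mpr (by omega)
      simpa [hν0, hm0] using hz

end Pool.Agent.Helper38.BW
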